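import Pool.Agent.H503R3.CC.PdPart

universe u v

open CategoryTheory IsLocalRing TensorProduct Pointwise

namespace H503R3.CC

variable (K : Type u) [Field K] (n : ℕ)

/-- The polynomial ring `K[x_0, …, x_n]`. -/
abbrev A0 := MvPolynomial (Fin (n + 1)) K

/-- The variables, indexed by natural numbers. -/
noncomputable def xs (j : ℕ) : A0 K n := MvPolynomial.X (Fin.ofNat (n + 1) j)

theorem ofNat_val {j : ℕ} (hj : j ≤ n) : (Fin.ofNat (n + 1) j).val = j := by
  simp only [Fin.ofNat]
  exact Nat.mod_eq_of_lt (by omega)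

theorem ofList_xs (i : ℕ) (hi : i ≤ n + 1) :
    Ideal.ofList ((List.range i).map (xs K n)) =
      Ideal.span (MvPolynomial.X '' {j : Fin (n + 1) | j.val < i}) := by
  unfold Ideal.ofList
  congr 1
  ext r
  simp only [Set.mem_ofPred_eq, List.mem_map, List.mem_range, Set.mem_image]
  constructor
  · rintro ⟨j, hj, rfl⟩
    refine ⟨Fin.ofNat (n + 1) j, ?_, rfl⟩
    rw [ofNat_val n (by omega)]
    exact hj
  · rintro ⟨j, hj, rfl⟩
    refine ⟨j.val, hj, ?_⟩
    rw [xs]
    congr 1
    apply Fin.ext
    rw [ofNat_val n (by omega)]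

theorem xs_weaklyRegular :
    RingTheory.Sequence.IsWeaklyRegular (A0 K n) ((List.range (n + 1)).map (xs K n)) := by
  rw [RingTheory.Sequence.isWeaklyRegular_iff]
  intro i hi
  have hi' : i < n + 1 := by simpa using hi
  have htake : List.take i ((List.range (n + 1)).map (xs K n)) = (List.range i).map (xs K n) := by
    rw [← List.map_take, List.take_range, Nat.min_eq_left hi'.le]
  have hget : ((List.range (n + 1)).map (xs K n))[i] = xs K n i := by simp
  rw [hget, htake, isSMulRegular_iff_right_eq_zero_of_smul]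
  intro m hm
  obtain ⟨f, rfl⟩ := Submodule.mkQ_surjective _ m
  rw [← map_smul] at hm
  rw [Submodule.mkQ_apply, Submodule.Quotient.mk_eq_zero] at hm ⊢
  rw [smul_eq_mul, Ideal.mul_top, ofList_xs K n i hi'.le, MvPolynomial.mem_ideal_span_X_image]
    at hm ⊢
  intro m hmf
  have h1 : m + Finsupp.single (Fin.ofNat (n + 1) i) 1 ∈ (xs K n i • f).support := by
    rw [smul_eq_mul, mul_comm, xs, MvPolynomial.mem_support_iff, MvPolynomial.coeff_mul_X]
    exact MvPolynomial.mem_support_iff.mp hmf
  obtain ⟨j, hj, hj2⟩ := hm _ h1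
  refine ⟨j, hj, ?_⟩
  have hne : Fin.ofNat (n + 1) i ≠ j := by
    intro he
    have := congrArg Fin.val he
    rw [ofNat_val n (by omega)] at this
    change j.val < i at hj
    omega
  rw [Finsupp.add_apply, Finsupp.single_apply, if_neg hne, add_zero] at hj2
  exact hj2

/-- The polynomial `X ^ 2 - x_0 x_n`. -/
noncomputable def fpoly : Polynomial (A0 K n) :=
  Polynomial.X ^ 2 - Polynomial.C (xs K n 0 * xs K n n)

theorem fpoly_monic : (fpoly K n).Monic := Polynomial.monic_X_pow_sub_C _ two_ne_zero

theorem fpoly_natDegree : (fpoly K n).natDegree = 2 := Polynomial.natDegree_X_pow_sub_C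

theorem fpoly_prime (hn : 0 < n) : Prime (fpoly K n) := by
  rw [← UniqueFactorizationMonoid.irreducible_iff_prime,
    (fpoly_monic K n).irreducible_iff_roots_eq_zero_of_degree_le_three
      (by rw [fpoly_natDegree]) (by rw [fpoly_natDegree]; norm_num)]
  rw [Multiset.eq_zero_iff_forall_notMem]
  intro a ha
  have h1 := Polynomial.isRoot_of_mem_roots ha
  have h2 : a ^ 2 = xs K n 0 * xs K n n := by
    have : a ^ 2 - xs K n 0 * xs K n n = 0 := by
      simpa [fpoly, Polynomial.IsRoot.def] using h1
    exact sub_eq_zero.mp this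
  have hp : Prime (xs K n 0) := MvPolynomial.X_prime
  have h3 : xs K n 0 ∣ a := hp.dvd_of_dvd_pow (h2 ▸ Dvd.intro _ rfl)
  obtain ⟨b, rfl⟩ := h3
  have h4 : xs K n 0 * b ^ 2 = xs K n n := by
    apply mul_left_cancel₀ hp.ne_zero
    rw [← h2]
    ring
  have h5 : xs K n 0 ∣ xs K n n := ⟨_, h4.symm⟩
  rw [xs, xs, MvPolynomial.X_dvd_X] at h5
  have := congrArg Fin.val h5
  rw [ofNat_val n (Nat.zero_le _), ofNat_val n le_rfl] at this
  omega

/-- The affine ring `K[x_0, …, x_n, w] / (w ^ 2 - x_0 x_n)`. -/
abbrev R0 := AdjoinRoot (fpoly K n)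

theorem R0_isDomain (hn : 0 < n) : IsDomain (R0 K n) :=
  AdjoinRoot.isDomain_of_prime (fpoly_prime K n hn)

/-- The images of the variables in `R0`. -/
noncomputable def x0 (j : ℕ) : R0 K n := algebraMap (A0 K n) (R0 K n) (xs K n j)

/-- The image of `w` in `R0`. -/
noncomputable def w0 : R0 K n := AdjoinRoot.root (fpoly K n)

theorem w0_sq : w0 K n ^ 2 = x0 K n 0 * x0 K n n := by
  have h : AdjoinRoot.mk (fpoly K n)
    (Polynomial.X ^ 2 - Polynomial.C (xs K n 0 * xs K n n)) = 0 := AdjoinRoot.mk_self
  rw [map_sub, map_pow, AdjoinRoot.mk_X, AdjoinRoot.mk_C, sub_eq_zero, map_mul] at h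
  exact h

/-- The endomorphism of the polynomial ring that kills `x_0, …, x_i`. -/
noncomputable def killHom (i : ℕ) : A0 K n →+* A0 K n :=
  MvPolynomial.eval₂Hom MvPolynomial.C
    (fun j : Fin (n + 1) => if j.val ≤ i then 0 else MvPolynomial.X j)

theorem killHom_xs (i j : ℕ) (hj : j ≤ n) :
    killHom K n i (xs K n j) = if j ≤ i then 0 else xs K n j := by
  rw [killHom, xs, MvPolynomial.eval₂Hom_X', ofNat_val n hj]

/-- The map `R0 → K[x_0, …, x_n]` that kills `w, x_0, …, x_i`. -/
noncomputable def phi (i : ℕ) : R0 K n →+* A0 K n :=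
  AdjoinRoot.lift (killHom K n i) 0 (by
    rw [fpoly, Polynomial.eval₂_sub, Polynomial.eval₂_pow, Polynomial.eval₂_X,
      Polynomial.eval₂_C, map_mul, killHom_xs K n i 0 (Nat.zero_le _), if_pos (Nat.zero_le _)]
    simp)

theorem phi_x0 (i j : ℕ) (hj : j ≤ n) : phi K n i (x0 K n j) = if j ≤ i then 0 else xs K n j := by
  rw [← killHom_xs K n i j hj]
  exact AdjoinRoot.lift_of _

theorem phi_w0 (i : ℕ) : phi K n i (w0 K n) = 0 := AdjoinRoot.lift_root _

theorem ker_phi (i : ℕ) (hi : i ≤ n) : RingHom.ker (phi K n i) = P (x0 K n) (w0 K n) i := by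
  apply le_antisymm
  · intro r hr
    have key : (Ideal.Quotient.mk (P (x0 K n) (w0 K n) i)) =
        (Ideal.Quotient.mk (P (x0 K n) (w0 K n) i)).comp
          ((algebraMap (A0 K n) (R0 K n)).comp (phi K n i)) := by
      have h1 : (Ideal.Quotient.mk (P (x0 K n) (w0 K n) i)).comp (AdjoinRoot.mk (fpoly K n)) =
        ((Ideal.Quotient.mk (P (x0 K n) (w0 K n) i)).comp
          ((algebraMap (A0 K n) (R0 K n)).comp (phi K n i))).comp
            (AdjoinRoot.mk (fpoly K n)) := by
        apply Polynomial.ringHom_ext'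
        · apply MvPolynomial.ringHom_ext
          · intro r
            have h2 : phi K n i (AdjoinRoot.mk (fpoly K n) (Polynomial.C (MvPolynomial.C r))) =
                MvPolynomial.C r := by
              have : phi K n i (AdjoinRoot.of (fpoly K n) (MvPolynomial.C r)) =
                killHom K n i (MvPolynomial.C r) := AdjoinRoot.lift_of _
              rw [killHom, MvPolynomial.eval₂Hom_C] at this
              exact this
            simp only [RingHom.comp_apply, h2]
            rfl
          · intro j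
            have hj : (MvPolynomial.X j : A0 K n) = xs K n j.val := by
              rw [xs]
              congr 1
              apply Fin.ext
              rw [ofNat_val n (by omega)]
            have h2 : phi K n i (AdjoinRoot.mk (fpoly K n) (Polynomial.C (MvPolynomial.X j))) =
                if j.val ≤ i then 0 else xs K n j.val := by
              rw [hj]
              exact phi_x0 K n i j.val (by omega)
            simp only [RingHom.comp_apply, h2]
            split_ifs with h3
            · rw [map_zero, map_zero, hj, Ideal.Quotient.eq_zero_iff_mem]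
              exact mem_P (x0 K n) (w0 K n) h3
            · rw [hj]
              rfl
        · have h2 : phi K n i (AdjoinRoot.mk (fpoly K n) Polynomial.X) = 0 := phi_w0 K n i
          simp only [RingHom.comp_apply, h2, map_zero]
          rw [Ideal.Quotient.eq_zero_iff_mem]
          exact w_mem_P (x0 K n) (w0 K n) i
      apply RingHom.ext
      intro r
      obtain ⟨p, rfl⟩ := AdjoinRoot.mk_surjective r
      exact RingHom.congr_fun h1 p
    rw [← Ideal.Quotient.eq_zero_iff_mem, key]
    rw [RingHom.mem_ker] at hr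
    simp only [RingHom.comp_apply, hr, map_zero]
  · rw [P, Ideal.span_le]
    rintro r (rfl | ⟨j, hj, rfl⟩)
    · exact phi_w0 K n i
    · change phi K n i (x0 K n j) = 0
      have hji : j ≤ i := hj
      rw [phi_x0 K n i j (by omega), if_pos hji]

theorem P0_isPrime (i : ℕ) (hi : i ≤ n) : (P (x0 K n) (w0 K n) i).IsPrime := by
  rw [← ker_phi K n i hi]
  exact RingHom.ker_isPrime _

theorem x0_notMem (i : ℕ) (hi : i < n) : x0 K n (i + 1) ∉ P (x0 K n) (w0 K n) i := by
  rw [← ker_phi K n i hi.le, RingHom.mem_ker, phi_x0 K n i (i + 1) (by omega),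
    if_neg (by omega)]
  exact MvPolynomial.X_ne_zero _

/-- The map used to see that `x_0` does not vanish. -/
noncomputable def psi : R0 K n →+* A0 K n :=
  AdjoinRoot.lift (MvPolynomial.eval₂Hom MvPolynomial.C
    (fun _ : Fin (n + 1) => (MvPolynomial.X 0 : A0 K n))) (MvPolynomial.X 0) (by
    rw [fpoly, Polynomial.eval₂_sub, Polynomial.eval₂_pow, Polynomial.eval₂_X,
      Polynomial.eval₂_C, map_mul, xs, xs, MvPolynomial.eval₂Hom_X', MvPolynomial.eval₂Hom_X']
    ring)

theorem x0_zero_ne_zero : x0 K n 0 ≠ 0 := by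
  intro h
  have h1 : psi K n (x0 K n 0) = MvPolynomial.X 0 := by
    have : psi K n (AdjoinRoot.of (fpoly K n) (xs K n 0)) = _ := AdjoinRoot.lift_of _
    rw [xs, MvPolynomial.eval₂Hom_X'] at this
    exact this
  rw [h, map_zero] at h1
  exact MvPolynomial.X_ne_zero _ h1.symm

end H503R3.CC
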