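import Mathlib

/-! Definitions: depth, Cohen-Macaulay modules of codimension `t`, local hypersurface domains and
the condition `(C_c)`. -/

universe u v

open CategoryTheory IsLocalRing TensorProduct

namespace H503R3.CC

/-- The depth of a module `N` over a local ring: the supremum of the lengths of the `N`-regular
sequences contained in the maximal ideal. -/
noncomputable def depth (R : Type u) [CommRing R] [IsLocalRing R] (N : Type v) [AddCommGroup N]
    [Module R N] : ℕ∞ :=
  ⨆ rs : {rs : List R // (∀ r ∈ rs, r ∈ maximalIdeal R) ∧
    RingTheory.Sequence.IsRegular N rs}, (rs.1.length : ℕ∞)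

/-- The codimension of a module: the infimum of the heights of the primes in its support. -/
noncomputable def codim (R : Type u) [CommRing R] (N : Type v) [AddCommGroup N]
    [Module R N] : ℕ∞ :=
  ⨅ p : Module.support R N, p.1.asIdeal.height

/-- `N` is a Cohen-Macaulay module of codimension `t` over the local ring `R`: it is nonzero,
its depth equals its dimension, and its codimension is `t`. -/
structure IsCMOfCodim (R : Type u) [CommRing R] [IsLocalRing R] (N : Type v) [AddCommGroup N]
    [Module R N] (t : ℕ) : Prop where
  nontrivial : Nontrivial N
  depth_eq : ((depth R N : ℕ∞) : WithBot ℕ∞) = Module.supportDim R N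
  codim_eq : codim R N = t

/-- `R` is a local hypersurface domain: a local domain isomorphic to `S / (f)`, with `S` a regular
local ring and `f` a nonzerodivisor in the square of the maximal ideal of `S`. -/
def IsLocalHypersurfaceDomain (R : Type u) [CommRing R] : Prop :=
  IsLocalRing R ∧ IsDomain R ∧
    ∃ (S : Type u) (_ : CommRing S) (_ : IsRegularLocalRing S) (f : S),
      f ∈ maximalIdeal S ^ 2 ∧ f ∈ nonZeroDivisors S ∧ Nonempty (R ≃+* S ⧸ Ideal.span {f})

/-- The condition `(C_c)` for the local ring `R`: if `M` is a finitely generated `R`-module such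
that both `M` and `M ⊗ Ext^(c-1)(M, R)` are Cohen-Macaulay of codimension `c - 1`, then `M` has
finite projective dimension. -/
def ConditionC (c : ℕ) (R : Type u) [CommRing R] [IsLocalRing R] : Prop :=
  ∀ (M : Type u) [AddCommGroup M] [Module R M] [Module.Finite R M],
    IsCMOfCodim R M (c - 1) →
    IsCMOfCodim R (M ⊗[R] Abelian.Ext (ModuleCat.of R M) (ModuleCat.of R R) (c - 1)) (c - 1) →
    projectiveDimension (ModuleCat.of R M) < ⊤

end H503R3.CC
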