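import Pool.Agent.H503R3.CC.Pd
import Pool.Agent.H503R3.CC.Defs

universe u v

open CategoryTheory IsLocalRing TensorProduct Pointwise

namespace H503R3.CC

section general

variable {R : Type u} [CommRing R] [IsLocalRing R]

theorem supportDim_eq_zero_of {N : Type v} [AddCommGroup N] [Module R N] [Nontrivial N]
    (h : ∀ p ∈ Module.support R N, p.asIdeal = maximalIdeal R) :
    Module.supportDim R N = 0 := by
  have : Nonempty (Module.support R N) := Module.nonempty_support_of_nontrivial.to_subtype
  have : Subsingleton (Module.support R N) :=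
    ⟨fun a b => Subtype.ext (PrimeSpectrum.ext ((h _ a.2).trans (h _ b.2).symm))⟩
  exact Order.krullDim_eq_zero

theorem depth_le_supportDim [IsNoetherianRing R] {N : Type v} [AddCommGroup N] [Module R N]
    [Module.Finite R N] [Nontrivial N] :
    ((depth R N : ℕ∞) : WithBot ℕ∞) ≤ Module.supportDim R N := by
  have hne : Module.supportDim R N ≠ ⊥ := Module.supportDim_ne_bot_of_nontrivial R N
  obtain ⟨d, hd⟩ := WithBot.ne_bot_iff_exists.mp hne
  rw [← hd, WithBot.coe_le_coe, depth, iSup_le_iff]
  rintro ⟨rs, hrs, hreg⟩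
  have h1 := Module.supportDim_add_length_eq_supportDim_of_isRegular rs hreg
  have hnt : Nontrivial (N ⧸ Ideal.ofList rs • (⊤ : Submodule R N)) := by
    apply Submodule.Quotient.nontrivial_iff.mpr
    exact hreg.2.symm
  have hne2 := Module.supportDim_ne_bot_of_nontrivial R
    (N ⧸ Ideal.ofList rs • (⊤ : Submodule R N))
  obtain ⟨d', hd'⟩ := WithBot.ne_bot_iff_exists.mp hne2
  rw [← hd, ← hd'] at h1
  have h2 : d' + (rs.length : ℕ∞) = d := by exact_mod_cast h1
  rw [← h2]
  exact le_add_self

theorem length_le_depth {N : Type v} [AddCommGroup N] [Module R N] (rs : List R)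
    (h1 : ∀ r ∈ rs, r ∈ maximalIdeal R) (h2 : RingTheory.Sequence.IsRegular N rs) :
    (rs.length : ℕ∞) ≤ depth R N :=
  le_iSup (fun rs : {rs : List R // (∀ r ∈ rs, r ∈ maximalIdeal R) ∧
    RingTheory.Sequence.IsRegular N rs} => (rs.1.length : ℕ∞)) ⟨rs, h1, h2⟩

end general

/-- The prime candidates `P i = (w, x 0, …, x i)`. -/
def P {R : Type u} [CommRing R] (x : ℕ → R) (w : R) (i : ℕ) : Ideal R :=
  Ideal.span (insert w (x '' {j | j ≤ i}))

theorem mem_P {R : Type u} [CommRing R] (x : ℕ → R) (w : R) {i j : ℕ} (h : j ≤ i) :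
    x j ∈ P x w i := Ideal.subset_span (Set.mem_insert_of_mem _ ⟨j, h, rfl⟩)

theorem w_mem_P {R : Type u} [CommRing R] (x : ℕ → R) (w : R) (i : ℕ) :
    w ∈ P x w i := Ideal.subset_span (Set.mem_insert _ _)

theorem P_zero {R : Type u} [CommRing R] (x : ℕ → R) (w : R) :
    P x w 0 = Ideal.span {x 0, w} := by
  have : x '' {j | j ≤ 0} = {x 0} := by
    ext r
    simp
  rw [P, this, Set.pair_comm]

theorem P_succ {R : Type u} [CommRing R] (x : ℕ → R) (w : R) (i : ℕ) :
    P x w (i + 1) = P x w i ⊔ Ideal.span {x (i + 1)} := by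
  rw [P, P, ← Ideal.span_union]
  congr 1
  ext r
  simp only [Set.mem_insert_iff, Set.mem_image, Set.mem_ofPred_eq, Set.union_singleton]
  constructor
  · rintro (h | ⟨j, hj, rfl⟩)
    · exact Or.inr (Or.inl h)
    · rcases Nat.lt_or_ge i j with h | h
      · have : j = i + 1 := by omega
        subst this
        exact Or.inl rfl
      · exact Or.inr (Or.inr ⟨j, h, rfl⟩)
  · rintro (rfl | h | ⟨j, hj, rfl⟩)
    · exact Or.inr ⟨i + 1, le_rfl, rfl⟩
    · exact Or.inl h
    · exact Or.inr ⟨j, by omega, rfl⟩

/-- The abstract situation. -/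
structure Data (R : Type u) [CommRing R] [IsLocalRing R] (n : ℕ) (x : ℕ → R) (w : R) : Prop where
  sq : w ^ 2 = x 0 * x n
  pos : 0 < n
  ne_zero : x 0 ≠ 0
  prime : ∀ i ≤ n, (P x w i).IsPrime
  notMem : ∀ i < n, x (i + 1) ∉ P x w i
  reg : RingTheory.Sequence.IsWeaklyRegular R ((List.range (n + 1)).map x)
  max : P x w n = maximalIdeal R

namespace Data

variable {R : Type u} [CommRing R] [IsLocalRing R] {n : ℕ} {x : ℕ → R} {w : R}

theorem mem_max (h : Data R n x w) {j : ℕ} (hj : j ≤ n) : x j ∈ maximalIdeal R :=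
  h.max ▸ mem_P x w hj

omit [IsLocalRing R] in
theorem list_mem {m : ℕ} {r : R}
    (hr : r ∈ (List.range (m + 1)).map x) : r ∈ P x w m := by
  simp only [List.mem_map, List.mem_range] at hr
  obtain ⟨j, hj, rfl⟩ := hr
  exact mem_P x w (by omega)

theorem isRegular [IsNoetherianRing R] (h : Data R n x w) :
    RingTheory.Sequence.IsRegular R ((List.range (n + 1)).map x) :=
  (IsLocalRing.isRegular_iff_isWeaklyRegular_of_subset_maximalIdeal
    (fun _ hr => h.max ▸ list_mem hr)).mpr h.reg

theorem P_lt (h : Data R n x w) {i : ℕ} (hi : i < n) : P x w i < P x w (i + 1) := by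
  rw [P_succ]
  refine lt_of_le_of_ne le_sup_left ?_
  intro heq
  apply h.notMem i hi
  rw [heq]
  exact Ideal.mem_sup_right (Ideal.mem_span_singleton_self _)

theorem dim [IsNoetherianRing R] (h : Data R n x w) :
    ringKrullDim R = ((n + 1 : ℕ) : WithBot ℕ∞) := by
  have h1 := ringKrullDim_add_length_eq_ringKrullDim_of_isRegular _ h.isRegular
  rw [← h1]
  have h0 : ringKrullDim (R ⧸ Ideal.ofList ((List.range (n + 1)).map x)) = 0 := by
    rw [ringKrullDim_quotient]
    have key : ∀ p : PrimeSpectrum R,
        p ∈ PrimeSpectrum.zeroLocus (Ideal.ofList ((List.range (n + 1)).map x) : Set R) →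
        p.asIdeal = maximalIdeal R := by
      intro p hp
      rw [PrimeSpectrum.mem_zeroLocus, SetLike.coe_subset_coe] at hp
      apply le_antisymm (IsLocalRing.le_maximalIdeal p.2.ne_top)
      rw [← h.max, P, Ideal.span_le]
      have hx : ∀ j ≤ n, x j ∈ p.asIdeal := by
        intro j hj
        apply hp
        apply Ideal.subset_span
        simp only [Set.mem_ofPred_eq, List.mem_map, List.mem_range]
        exact ⟨j, by omega, rfl⟩
      rintro r (rfl | ⟨j, hj, rfl⟩)
      · have : r ^ 2 ∈ p.asIdeal := by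
          rw [h.sq]
          exact Ideal.mul_mem_left _ _ (hx n le_rfl)
        exact p.2.mem_of_pow_mem 2 this
      · exact hx j hj
    have : Subsingleton (PrimeSpectrum.zeroLocus
        (Ideal.ofList ((List.range (n + 1)).map x) : Set R)) :=
      ⟨fun a b => Subtype.ext (PrimeSpectrum.ext ((key _ a.2).trans (key _ b.2).symm))⟩
    have : Nonempty (PrimeSpectrum.zeroLocus
        (Ideal.ofList ((List.range (n + 1)).map x) : Set R)) := by
      refine ⟨⟨⟨maximalIdeal R, inferInstance⟩, ?_⟩⟩
      rw [PrimeSpectrum.mem_zeroLocus, SetLike.coe_subset_coe]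
      refine Ideal.span_le.mpr ?_
      intro r hr
      have h2 := list_mem (x := x) (w := w) hr
      rwa [h.max] at h2
    exact Order.krullDim_eq_zero
  rw [h0, zero_add]
  simp

theorem height_max [IsNoetherianRing R] (h : Data R n x w) :
    (maximalIdeal R).height = ((n + 1 : ℕ) : ℕ∞) := by
  have h1 := IsLocalRing.maximalIdeal_height_eq_ringKrullDim (R := R)
  rw [h.dim] at h1
  exact_mod_cast h1

theorem le_height [IsNoetherianRing R] [IsDomain R] (h : Data R n x w) {i : ℕ} (hi : i ≤ n) :
    ((i + 1 : ℕ) : ℕ∞) ≤ (P x w i).height := by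
  induction i with
  | zero =>
    have := h.prime 0 hi
    have hlt : (⊥ : Ideal R) < P x w 0 := by
      refine lt_of_le_of_ne bot_le ?_
      intro heq
      have h1 : x 0 ∈ P x w 0 := mem_P x w le_rfl
      rw [← heq] at h1
      exact h.ne_zero (by simpa using h1)
    have h2 := Ideal.height_add_one_le_of_lt_of_isPrime hlt
    refine le_trans ?_ h2
    simp
  | succ i ih =>
    have := h.prime i (by omega)
    have := h.prime (i + 1) hi
    have h2 := Ideal.height_add_one_le_of_lt_of_isPrime (h.P_lt (i := i) (by omega))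
    refine le_trans ?_ h2
    have := ih (by omega)
    push_cast at this ⊢
    gcongr

theorem height_P [IsNoetherianRing R] [IsDomain R] (h : Data R n x w) :
    (P x w (n - 1)).height = (n : ℕ∞) := by
  have hpos := h.pos
  apply le_antisymm
  · have := h.prime (n - 1) (by omega)
    have h2 := Ideal.height_add_one_le_of_lt_of_isPrime
      (I := P x w (n - 1)) (J := maximalIdeal R) (by
        have := h.P_lt (i := n - 1) (by omega)
        rwa [Nat.sub_add_cancel hpos, h.max] at this)
    rw [h.height_max] at h2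
    push_cast at h2
    exact (ENat.add_le_add_iff_right (by simp)).mp h2
  · have := h.le_height (i := n - 1) (by omega)
    rwa [Nat.sub_add_cancel hpos] at this

theorem eq_or_eq [IsNoetherianRing R] [IsDomain R] (h : Data R n x w) (q : Ideal R) [q.IsPrime]
    (hq : P x w (n - 1) ≤ q) : q = P x w (n - 1) ∨ q = maximalIdeal R := by
  by_contra hcon
  push Not at hcon
  have := h.prime (n - 1) (by omega)
  have h1 := Ideal.height_add_one_le_of_lt_of_isPrime (lt_of_le_of_ne hq (Ne.symm hcon.1))
  have h2 := Ideal.height_add_one_le_of_lt_of_isPrime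
    (lt_of_le_of_ne (IsLocalRing.le_maximalIdeal (Ideal.IsPrime.ne_top ‹q.IsPrime›)) hcon.2)
  rw [h.height_P] at h1
  rw [h.height_max] at h2
  have h3 : (n : ℕ∞) + 1 + 1 ≤ ((n + 1 : ℕ) : ℕ∞) := le_trans (by gcongr) h2
  have h4 : n + 1 + 1 ≤ n + 1 := by exact_mod_cast h3
  omega

theorem y_notMem (h : Data R n x w) : x n ∉ P x w (n - 1) := by
  have := h.notMem (n - 1) (by have := h.pos; omega)
  rwa [Nat.sub_add_cancel h.pos] at this

/-- A finitely generated nonzero module killed by `P (n-1)` on which `x n` is regular is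
Cohen-Macaulay of codimension `n`. -/
theorem isCM [IsNoetherianRing R] [IsDomain R] (h : Data R n x w) (N : Type v) [AddCommGroup N]
    [Module R N] [Module.Finite R N] [Nontrivial N]
    (hkill : ∀ r ∈ P x w (n - 1), ∀ e : N, r • e = 0) (hreg : IsSMulRegular N (x n)) :
    IsCMOfCodim R N n := by
  have hym : x n ∈ maximalIdeal R := h.mem_max le_rfl
  have hdim := Module.supportDim_quotSMulTop_succ_eq_supportDim hreg hym
  have hnt : Nontrivial (QuotSMulTop (x n) N) :=
    nontrivial_quotSMulTop_of_mem_maximalIdeal N hym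
  have hsupp : ∀ p ∈ Module.support R N, P x w (n - 1) ≤ p.asIdeal := by
    intro p hp
    rw [Module.mem_support_iff_of_finite] at hp
    refine le_trans ?_ hp
    intro r hr
    rw [Module.mem_annihilator]
    exact hkill r hr
  have hsuppq : ∀ p ∈ Module.support R (QuotSMulTop (x n) N), p.asIdeal = maximalIdeal R := by
    intro p hp
    rw [Module.support_quotSMulTop] at hp
    obtain ⟨hp1, hp2⟩ := hp
    rcases h.eq_or_eq p.asIdeal (hsupp p hp1) with h1 | h1
    · exfalso
      apply h.y_notMem
      rw [← h1]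
      simpa using hp2
    · exact h1
  have hdim0 := supportDim_eq_zero_of hsuppq
  rw [hdim0, zero_add] at hdim
  have hmem : ∃ p ∈ Module.support R N, p.asIdeal = P x w (n - 1) := by
    by_contra hcon
    push Not at hcon
    have h1 : Module.supportDim R N = 0 := supportDim_eq_zero_of fun p hp =>
      (h.eq_or_eq p.asIdeal (hsupp p hp)).resolve_left (hcon p hp)
    rw [h1] at hdim
    exact absurd hdim (by decide)
  refine ⟨inferInstance, ?_, ?_⟩
  · apply le_antisymm depth_le_supportDim
    rw [← hdim]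
    have h1 : ((1 : ℕ) : ℕ∞) ≤ depth R N := by
      refine length_le_depth [x n] (by simpa using hym) ?_
      rw [IsLocalRing.isRegular_iff_isWeaklyRegular_of_subset_maximalIdeal (by simpa using hym)]
      rw [RingTheory.Sequence.isWeaklyRegular_cons_iff]
      exact ⟨hreg, RingTheory.Sequence.IsWeaklyRegular.nil _ _⟩
    exact_mod_cast h1
  · apply le_antisymm
    · obtain ⟨p, hp, hpe⟩ := hmem
      refine iInf_le_of_le ⟨p, hp⟩ ?_
      change p.asIdeal.height ≤ _
      rw [hpe, h.height_P]
    · refine le_iInf ?_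
      rintro ⟨p, hp⟩
      rw [← h.height_P]
      exact Ideal.height_mono (hsupp p hp)

end Data

end H503R3.CC
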