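import Pool.Agent.H503R3.CC.Abstract

universe u v

open CategoryTheory IsLocalRing TensorProduct Pointwise

namespace H503R3.CC

namespace Data

variable {R : Type u} [CommRing R] [IsLocalRing R] {n : ℕ} {x : ℕ → R} {w : R}

theorem regular_quot (h : Data R n x w) : IsSMulRegular (R ⧸ P x w (n - 1)) (x n) := by
  have hp := h.prime (n - 1) (by omega)
  rw [isSMulRegular_iff_right_eq_zero_of_smul]
  intro r hr
  obtain ⟨r, rfl⟩ := Ideal.Quotient.mk_surjective r
  change Ideal.Quotient.mk _ (x n * r) = 0 at hr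
  rw [Ideal.Quotient.eq_zero_iff_mem] at hr ⊢
  exact (hp.mem_or_mem hr).resolve_left h.y_notMem

omit [IsLocalRing R] in
theorem quot_kill (r : R) (hr : r ∈ P x w (n - 1)) (e : R ⧸ P x w (n - 1)) : r • e = 0 := by
  obtain ⟨e, rfl⟩ := Ideal.Quotient.mk_surjective e
  change Ideal.Quotient.mk _ (r * e) = 0
  rw [Ideal.Quotient.eq_zero_iff_mem]
  exact Ideal.mul_mem_right _ _ hr

theorem quot_nontrivial (h : Data R n x w) : Nontrivial (R ⧸ P x w (n - 1)) := by
  have hp := h.prime (n - 1) (by omega)
  infer_instance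

theorem quot_isCM [IsNoetherianRing R] [IsDomain R] (h : Data R n x w) :
    IsCMOfCodim R (R ⧸ P x w (n - 1)) n := by
  have := h.quot_nontrivial
  exact h.isCM _ quot_kill h.regular_quot

/-- The `n`-th Ext module. -/
abbrev E (R : Type u) [CommRing R] (n : ℕ) (x : ℕ → R) (w : R) :=
  Abelian.Ext (ModuleCat.of R (R ⧸ P x w (n - 1))) (ModuleCat.of R R) n

theorem smul_lt_top (I : Ideal R) (hI : I ≤ maximalIdeal R) :
    I • (⊤ : Submodule R (ModuleCat.of R R)) < ⊤ := by
  have : I • (⊤ : Submodule R (ModuleCat.of R R)) = (I : Submodule R R) := by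
    change I • (⊤ : Submodule R R) = _
    simp
  rw [this]
  exact lt_of_le_of_lt hI (lt_top_iff_ne_top.mpr (maximalIdeal.isMaximal R).ne_top)

theorem P_le_max (h : Data R n x w) : P x w (n - 1) ≤ maximalIdeal R := by
  have hp := h.prime (n - 1) (by omega)
  exact IsLocalRing.le_maximalIdeal hp.ne_top

theorem isRegular' [IsNoetherianRing R] (h : Data R n x w) :
    RingTheory.Sequence.IsRegular R ((List.range n).map x) := by
  rw [IsLocalRing.isRegular_iff_isWeaklyRegular_of_subset_maximalIdeal]
  · have := h.reg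
    rw [List.range_succ, List.map_append,
      RingTheory.Sequence.isWeaklyRegular_append_iff] at this
    exact this.1
  · intro r hr
    simp only [List.mem_map, List.mem_range] at hr
    obtain ⟨j, hj, rfl⟩ := hr
    exact h.mem_max (by omega)

theorem ext_lt [IsNoetherianRing R] (h : Data R n x w) (i : ℕ) (hi : i < n) :
    Subsingleton (Abelian.Ext (ModuleCat.of R (R ⧸ P x w (n - 1))) (ModuleCat.of R R) i) := by
  refine ModuleCat.subsingleton_ext_of_exists_isRegular (P x w (n - 1))
    (ModuleCat.of R (R ⧸ P x w (n - 1))) ?_ (ModuleCat.of R R) (smul_lt_top _ h.P_le_max)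
    ((List.range n).map x) ?_ h.isRegular' i (by simpa using hi)
  · change Module.support R (R ⧸ P x w (n - 1)) ⊆ _
    rw [Module.support_eq_zeroLocus, Ideal.annihilator_quotient]
  · intro r hr
    simp only [List.mem_map, List.mem_range] at hr
    obtain ⟨j, hj, rfl⟩ := hr
    exact mem_P x w (by omega)

theorem ext_nontrivial [IsNoetherianRing R] [IsDomain R] (h : Data R n x w) :
    Nontrivial (E R n x w) := by
  rw [← not_subsingleton_iff_nontrivial]
  intro hsub
  have hprime := h.prime (n - 1) (by omega)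
  obtain ⟨rs, hlen, hmem, hreg⟩ := ModuleCat.exists_isRegular_of_exists_subsingleton_ext
    (P x w (n - 1)) (n + 1) (ModuleCat.of R R) (smul_lt_top _ h.P_le_max)
    (ModuleCat.of R (R ⧸ P x w (n - 1)))
    (by
      change Module.support R (R ⧸ P x w (n - 1)) = _
      rw [Module.support_eq_zeroLocus, Ideal.annihilator_quotient])
    (by
      intro i hi
      rcases Nat.lt_succ_iff_lt_or_eq.mp hi with h1 | h1
      · exact h.ext_lt i h1
      · subst h1
        exact hsub)
  have h1 := ringKrullDim_add_length_eq_ringKrullDim_of_isRegular rs hreg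
  have hle : Ideal.ofList rs ≤ P x w (n - 1) := Ideal.span_le.mpr hmem
  have h2 : (1 : WithBot ℕ∞) ≤ ringKrullDim (R ⧸ Ideal.ofList rs) := by
    rw [ringKrullDim_quotient]
    have ha : (⟨P x w (n - 1), hprime⟩ : PrimeSpectrum R) ∈
        PrimeSpectrum.zeroLocus (Ideal.ofList rs : Set R) := hle
    have hb : (⟨maximalIdeal R, inferInstance⟩ : PrimeSpectrum R) ∈
        PrimeSpectrum.zeroLocus (Ideal.ofList rs : Set R) := hle.trans h.P_le_max
    rw [Order.one_le_krullDim_iff]
    refine ⟨⟨_, ha⟩, ⟨_, hb⟩, ?_⟩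
    change P x w (n - 1) < maximalIdeal R
    have := h.P_lt (i := n - 1) (by have := h.pos; omega)
    rwa [Nat.sub_add_cancel h.pos, h.max] at this
  rw [h.dim, hlen] at h1
  have h3 : (1 : WithBot ℕ∞) + ((n + 1 : ℕ) : WithBot ℕ∞) ≤ ((n + 1 : ℕ) : WithBot ℕ∞) := by
    rw [← h1]
    gcongr
    exact h1.symm ▸ le_rfl
  have h4 : 1 + (n + 1) ≤ n + 1 := by exact_mod_cast h3
  omega

omit [IsLocalRing R] in
theorem ext_kill (r : R) (hr : r ∈ P x w (n - 1)) (e : E R n x w) : r • e = 0 := by
  have h0 : r • 𝟙 (ModuleCat.of R (R ⧸ P x w (n - 1))) = 0 := by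
    apply ModuleCat.hom_ext
    apply LinearMap.ext
    intro m
    exact quot_kill r hr m
  have h1 : r • e = (Abelian.Ext.mk₀ (r • 𝟙 (ModuleCat.of R (R ⧸ P x w (n - 1))))).comp e
      (zero_add n) := by simp [Abelian.Ext.mk₀_smul]
  rw [h1, h0]
  simp

theorem ext_regular [IsNoetherianRing R] [IsDomain R] (h : Data R n x w) :
    IsSMulRegular (E R n x w) (x n) := by
  have hS := h.regular_quot.smulShortComplex_shortExact
    (M := ModuleCat.of R (R ⧸ P x w (n - 1)))
  have hsub : Subsingleton (Abelian.Ext (ModuleCat.of R (QuotSMulTop (x n)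
      (ModuleCat.of R (R ⧸ P x w (n - 1))))) (ModuleCat.of R R) n) := by
    refine ModuleCat.subsingleton_ext_of_exists_isRegular (maximalIdeal R)
      (ModuleCat.of R (QuotSMulTop (x n) (ModuleCat.of R (R ⧸ P x w (n - 1))))) ?_
      (ModuleCat.of R R) (smul_lt_top _ le_rfl)
      ((List.range (n + 1)).map x) ?_ h.isRegular n (by simp)
    · intro p hp
      change p ∈ Module.support R (QuotSMulTop (x n) (R ⧸ P x w (n - 1))) at hp
      rw [Module.support_quotSMulTop, Module.support_eq_zeroLocus,
        Ideal.annihilator_quotient] at hp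
      rcases h.eq_or_eq p.asIdeal hp.1 with h1 | h1
      · exfalso
        apply h.y_notMem
        rw [← h1]
        simpa using hp.2
      · rw [PrimeSpectrum.mem_zeroLocus, h1]
    · intro r hr
      have := list_mem (x := x) (w := w) hr
      rwa [h.max] at this
  rw [isSMulRegular_iff_right_eq_zero_of_smul]
  intro e he
  obtain ⟨e', he'⟩ := Abelian.Ext.contravariant_sequence_exact₂ hS (ModuleCat.of R R) e (by
    change (Abelian.Ext.mk₀ (x n • 𝟙 (ModuleCat.of R (R ⧸ P x w (n - 1))))).comp e
      (zero_add n) = 0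
    simpa [Abelian.Ext.mk₀_smul] using he)
  have : e' = 0 := Subsingleton.elim (h := hsub) _ _
  rw [← he', this]
  simp
  rfl

theorem ext_isCM [IsNoetherianRing R] [IsDomain R] (h : Data R n x w) :
    IsCMOfCodim R (E R n x w) n := by
  have := h.ext_nontrivial
  exact h.isCM _ ext_kill h.ext_regular

/-- `(R / 𝔭) ⊗ E ≅ E`. -/
noncomputable def tensorEquiv :
    (R ⧸ P x w (n - 1)) ⊗[R] (E R n x w) ≃ₗ[R] (E R n x w) :=
  (TensorProduct.quotTensorEquivQuotSMul (E R n x w) (P x w (n - 1))).trans
    (Submodule.quotEquivOfEqBot _ (by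
      rw [eq_bot_iff, Submodule.smul_le]
      intro r hr e _
      exact (Submodule.mem_bot R).mpr (ext_kill r hr e)))

theorem tensor_isCM [IsNoetherianRing R] [IsDomain R] (h : Data R n x w) :
    IsCMOfCodim R ((R ⧸ P x w (n - 1)) ⊗[R] (E R n x w)) n := by
  have := h.ext_nontrivial
  have : Nontrivial ((R ⧸ P x w (n - 1)) ⊗[R] (E R n x w)) :=
    (tensorEquiv (x := x) (w := w) (n := n)).toEquiv.nontrivial
  refine h.isCM _ ?_ ?_
  · intro r hr e
    apply (tensorEquiv (x := x) (w := w) (n := n)).injective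
    rw [map_smul, map_zero]
    exact ext_kill r hr _
  · rw [isSMulRegular_iff_right_eq_zero_of_smul]
    intro e he
    apply (tensorEquiv (x := x) (w := w) (n := n)).injective
    rw [map_zero]
    apply isSMulRegular_iff_right_eq_zero_of_smul.mp h.ext_regular
    rw [← map_smul, he, map_zero]

end Data

end H503R3.CC
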