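import Pool.Agent.H503R3.CC.PdPart

universe u v

open CategoryTheory IsLocalRing TensorProduct Pointwise

namespace H503R3.CC

namespace Data

variable {R : Type u} [CommRing R] [IsLocalRing R] {n : ℕ} {x : ℕ → R} {w : R}

theorem regular_at [IsNoetherianRing R] [IsDomain R] (h : Data R n x w)
    [hp : (P x w (n - 1)).IsPrime] :
    IsRegularLocalRing (Localization.AtPrime (P x w (n - 1))) := by
  classical
  set L := Localization.AtPrime (P x w (n - 1)) with hL
  set a : R →+* L := algebraMap R L with ha
  set T : Finset L := insert (a w) ((Finset.Icc 1 (n - 1)).image fun j => a (x j)) with hT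
  have hpos := h.pos
  have hcard : T.card ≤ n := by
    refine (Finset.card_insert_le _ _).trans ?_
    have h1 : ((Finset.Icc 1 (n - 1)).image fun j => a (x j)).card ≤ n - 1 :=
      Finset.card_image_le.trans (by simp)
    omega
  have hu : IsUnit (a (x n)) := by
    apply IsLocalization.map_units L (⟨x n, h.y_notMem⟩ : (P x w (n - 1)).primeCompl)
  obtain ⟨v, hv⟩ := hu.exists_right_inv
  have hx0 : a (x 0) = (v * a w) * a w := by
    have h1 : a w ^ 2 = a (x 0) * a (x n) := by
      rw [← map_pow, h.sq, map_mul]
    calc a (x 0) = a (x 0) * (a (x n) * v) := by rw [hv, mul_one]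
      _ = (a (x 0) * a (x n)) * v := by ring
      _ = (v * a w) * a w := by rw [← h1]; ring
  have hspan : maximalIdeal L = Ideal.span (T : Set L) := by
    have h1 : Ideal.map a (P x w (n - 1)) = maximalIdeal L :=
      Localization.AtPrime.map_eq_maximalIdeal
    have h1' : Ideal.map a (P x w (n - 1)) =
      Ideal.span (a '' insert w (x '' {j | j ≤ n - 1})) := Ideal.map_span a _
    rw [← h1, h1']
    apply le_antisymm
    · rw [Ideal.span_le]
      have hw : a w ∈ Ideal.span (T : Set L) := Ideal.subset_span (by simp [hT])
      rintro r ⟨s, (rfl | ⟨j, hj, rfl⟩), rfl⟩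
      · exact hw
      · have hj' : j ≤ n - 1 := hj
        rcases Nat.eq_zero_or_pos j with h0 | h0
        · subst h0
          rw [hx0]
          exact Ideal.mul_mem_left _ _ hw
        · apply Ideal.subset_span
          rw [hT, Finset.coe_insert, Finset.coe_image]
          exact Set.mem_insert_of_mem _ ⟨j, by simp; omega, rfl⟩
    · rw [Ideal.span_le, hT, Finset.coe_insert, Finset.coe_image]
      rintro r (rfl | ⟨j, hj, rfl⟩)
      · exact Ideal.subset_span ⟨w, Set.mem_insert _ _, rfl⟩
      · apply Ideal.subset_span
        refine ⟨x j, Set.mem_insert_of_mem _ ⟨j, ?_, rfl⟩, rfl⟩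
        have : 1 ≤ j ∧ j ≤ n - 1 := by simpa using hj
        exact this.2
  have hN : IsNoetherianRing L := IsLocalization.isNoetherianRing (P x w (n - 1)).primeCompl L
    inferInstance
  apply IsRegularLocalRing.of_spanFinrank_maximalIdeal_le
  have hdim : ringKrullDim L = ((P x w (n - 1)).height : WithBot ℕ∞) :=
    IsLocalization.AtPrime.ringKrullDim_eq_height (P x w (n - 1)) L
  rw [hdim, h.height_P, hspan]
  have h2 := Submodule.spanFinrank_span_le_ncard_of_finite (R := L) (T.finite_toSet)
  rw [Set.ncard_coe_finset] at h2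
  have h3 : (Ideal.span (T : Set L)).spanFinrank ≤ n := h2.trans hcard
  exact_mod_cast h3

end Data

end H503R3.CC
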