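import Pool.Agent.H503R3.CC.Loc

universe u v

open CategoryTheory IsLocalRing TensorProduct Pointwise

namespace H503R3.CC

variable (K : Type u) [Field K] (n : ℕ)

/-- The maximal ideal `(X, x_0, …, x_n)` of the polynomial ring. -/
noncomputable abbrev nS : Ideal (Polynomial (A0 K n)) :=
  (m0 K n).comap (AdjoinRoot.mk (fpoly K n))

/-- The regular local ring `K[x_0, …, x_n, X]` localised at the origin. -/
abbrev S0 := Localization.AtPrime (nS K n)

instance S0_regular : IsRegularLocalRing (S0 K n) := inferInstance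

/-- The surjection from the regular local ring. -/
noncomputable def gmap : S0 K n →+* RL K n :=
  Localization.localRingHom (nS K n) (m0 K n) (AdjoinRoot.mk (fpoly K n)) rfl

theorem gmap_surjective : Function.Surjective (gmap K n) := by
  intro r
  obtain ⟨a, s, rfl⟩ := IsLocalization.exists_mk'_eq (m0 K n).primeCompl r
  obtain ⟨p, rfl⟩ := AdjoinRoot.mk_surjective a
  obtain ⟨q, hq⟩ := AdjoinRoot.mk_surjective (s : R0 K n)
  have hq' : q ∈ (nS K n).primeCompl := by
    intro h
    have : AdjoinRoot.mk (fpoly K n) q ∈ m0 K n := h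
    rw [hq] at this
    exact s.2 this
  refine ⟨IsLocalization.mk' (S0 K n) p ⟨q, hq'⟩, ?_⟩
  rw [gmap, Localization.localRingHom_mk']
  congr 1
  exact Subtype.ext hq

/-- The equation of the hypersurface. -/
noncomputable def fS : S0 K n := algebraMap (Polynomial (A0 K n)) (S0 K n) (fpoly K n)

theorem ker_gmap (hn : 0 < n) : RingHom.ker (gmap K n) = Ideal.span {fS K n} := by
  have hdom := R0_isDomain K n hn
  apply le_antisymm
  · intro r hr
    obtain ⟨p, s, rfl⟩ := IsLocalization.exists_mk'_eq (nS K n).primeCompl r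
    rw [RingHom.mem_ker, gmap, Localization.localRingHom_mk',
      IsLocalization.mk'_eq_zero_iff] at hr
    obtain ⟨m, hm⟩ := hr
    have hm0 : (m : R0 K n) ≠ 0 := by
      intro h0
      apply m.2
      rw [h0]
      exact Ideal.zero_mem _
    have h1 : AdjoinRoot.mk (fpoly K n) p = 0 := (mul_eq_zero.mp hm).resolve_left hm0
    rw [AdjoinRoot.mk_eq_zero] at h1
    obtain ⟨c, rfl⟩ := h1
    rw [Ideal.mem_span_singleton]
    refine ⟨IsLocalization.mk' (S0 K n) c s, ?_⟩
    rw [fS, IsLocalization.mul_mk'_eq_mk'_of_mul]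
  · rw [Ideal.span_singleton_le_iff_mem, RingHom.mem_ker, fS, gmap,
      Localization.localRingHom_to_map, AdjoinRoot.mk_self, map_zero]

theorem sub_mem_sq {A : Type u} {B : Type u} [CommRing A] [CommRing B] [IsLocalRing B]
    (φ : A →+* B) {a b c : A} (ha : φ a ∈ maximalIdeal B) (hb : φ b ∈ maximalIdeal B)
    (hc : φ c ∈ maximalIdeal B) : φ (a ^ 2 - b * c) ∈ maximalIdeal B ^ 2 := by
  rw [map_sub, map_pow, map_mul, pow_two, pow_two]
  exact Ideal.sub_mem _ (Ideal.mul_mem_mul ha ha) (Ideal.mul_mem_mul hb hc)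

theorem fS_mem : fS K n ∈ maximalIdeal (S0 K n) ^ 2 := by
  have hmem : ∀ p : Polynomial (A0 K n), AdjoinRoot.mk (fpoly K n) p ∈ m0 K n →
      algebraMap (Polynomial (A0 K n)) (S0 K n) p ∈ maximalIdeal (S0 K n) := by
    intro p hp
    rw [IsLocalization.AtPrime.to_map_mem_maximal_iff (S0 K n) (nS K n)]
    exact hp
  have hX := hmem Polynomial.X (w_mem_P (x0 K n) (w0 K n) n)
  have h0 := hmem (Polynomial.C (xs K n 0)) (mem_P (x0 K n) (w0 K n) (Nat.zero_le n))
  have h1 := hmem (Polynomial.C (xs K n n)) (mem_P (x0 K n) (w0 K n) (le_refl n))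
  have h2 := sub_mem_sq (A := Polynomial (A0 K n)) (B := S0 K n)
    (algebraMap (Polynomial (A0 K n)) (S0 K n)) (a := Polynomial.X)
    (b := Polynomial.C (xs K n 0)) (c := Polynomial.C (xs K n n)) hX h0 h1
  have h3 : fpoly K n = Polynomial.X ^ 2 - Polynomial.C (xs K n 0) * Polynomial.C (xs K n n) := by
    rw [fpoly, Polynomial.C_mul]
  rw [fS, h3]
  exact h2

theorem fS_nonZeroDivisor : fS K n ∈ nonZeroDivisors (S0 K n) := by
  have hle := (nS K n).primeCompl_le_nonZeroDivisors
  have : IsDomain (S0 K n) := IsLocalization.isDomain_localization hle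
  apply mem_nonZeroDivisors_of_ne_zero
  intro h
  have hinj : Function.Injective (algebraMap (Polynomial (A0 K n)) (S0 K n)) :=
    IsLocalization.injective (M := (nS K n).primeCompl) (S0 K n) hle
  have : fpoly K n = 0 := by
    apply hinj
    rw [map_zero]
    exact h
  exact (fpoly_monic K n).ne_zero this

theorem RL_hypersurface (hn : 0 < n) : IsLocalHypersurfaceDomain (RL K n) := by
  refine ⟨inferInstance, RL_isDomain K n hn, S0 K n, inferInstance, inferInstance, fS K n,
    fS_mem K n, fS_nonZeroDivisor K n, ⟨?_⟩⟩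
  exact ((Ideal.quotEquivOfEq (ker_gmap K n hn).symm).trans
    (RingHom.quotientKerEquivOfSurjective (gmap_surjective K n))).symm

end H503R3.CC
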