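import Pool.Agent.H503R3.CC.Ring

universe u v

open CategoryTheory IsLocalRing TensorProduct Pointwise

namespace H503R3.CC

variable (K : Type u) [Field K] (n : ℕ)

/-- The ideal `(w, x_0, …, x_n)` of `R0`. -/
noncomputable abbrev m0 : Ideal (R0 K n) := P (x0 K n) (w0 K n) n

instance m0_isPrime : (m0 K n).IsPrime := P0_isPrime K n n le_rfl

/-- The local ring: `K[x_0, …, x_n, w] / (w ^ 2 - x_0 x_n)` localised at the origin. -/
abbrev RL := Localization.AtPrime (m0 K n)

/-- The images of the variables in the local ring. -/
noncomputable def x1 (j : ℕ) : RL K n := algebraMap (R0 K n) (RL K n) (x0 K n j)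

/-- The image of `w` in the local ring. -/
noncomputable def w1 : RL K n := algebraMap (R0 K n) (RL K n) (w0 K n)

theorem P1_eq (i : ℕ) : P (x1 K n) (w1 K n) i =
    (P (x0 K n) (w0 K n) i).map (algebraMap (R0 K n) (RL K n)) := by
  rw [P, P, Ideal.map_span, Set.image_insert_eq, Set.image_image]
  rfl

theorem P0_le (i : ℕ) (hi : i ≤ n) : P (x0 K n) (w0 K n) i ≤ m0 K n := by
  apply Ideal.span_mono
  apply Set.insert_subset_insert
  apply Set.image_mono
  intro k hk
  exact le_trans hk hi

theorem disjoint_P0 (i : ℕ) (hi : i ≤ n) :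
    Disjoint ((m0 K n).primeCompl : Set (R0 K n)) (P (x0 K n) (w0 K n) i : Set (R0 K n)) := by
  rw [Set.disjoint_left]
  intro r hr hr2
  exact hr (P0_le K n i hi hr2)

theorem flat_R0 : Module.Flat (A0 K n) (R0 K n) := by
  have := (fpoly_monic K n).free_adjoinRoot
  infer_instance

theorem flat_RL : Module.Flat (A0 K n) (RL K n) := by
  have := flat_R0 K n
  have : Module.Flat (R0 K n) (RL K n) := IsLocalization.flat _ (m0 K n).primeCompl
  exact Module.Flat.trans (A0 K n) (R0 K n) (RL K n)

theorem RL_isDomain (hn : 0 < n) : IsDomain (RL K n) := by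
  have := R0_isDomain K n hn
  exact IsLocalization.isDomain_localization (m0 K n).primeCompl_le_nonZeroDivisors

theorem data (hn : 0 < n) : Data (RL K n) n (x1 K n) (w1 K n) where
  sq := by
    rw [w1, x1, x1, ← map_pow, ← map_mul, w0_sq]
  pos := hn
  ne_zero := by
    have := R0_isDomain K n hn
    intro h
    apply x0_zero_ne_zero K n
    have hinj : Function.Injective (algebraMap (R0 K n) (RL K n)) :=
      IsLocalization.injective _ (m0 K n).primeCompl_le_nonZeroDivisors
    apply hinj
    rw [map_zero]
    exact h
  prime i hi := by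
    rw [P1_eq]
    exact IsLocalization.isPrime_of_isPrime_disjoint (m0 K n).primeCompl _ _
      (P0_isPrime K n i hi) (disjoint_P0 K n i hi)
  notMem i hi := by
    rw [P1_eq]
    intro h
    apply x0_notMem K n i hi
    rw [← IsLocalization.under_map_of_isPrime_disjoint (m0 K n).primeCompl (RL K n)
      (P0_isPrime K n i hi.le) (disjoint_P0 K n i hi.le)]
    exact h
  reg := by
    have := flat_RL K n
    have h := (xs_weaklyRegular K n).of_flat (S := RL K n)
    rw [List.map_map] at h
    have h2 : (List.range (n + 1)).map (x1 K n) =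
      (List.range (n + 1)).map (algebraMap (A0 K n) (RL K n) ∘ xs K n) := by
      apply List.map_congr_left
      intro j _
      rw [Function.comp_apply, x1, x0, ← IsScalarTower.algebraMap_apply]
    rw [h2]
    exact h
  max := by
    rw [P1_eq]
    exact Localization.AtPrime.map_eq_maximalIdeal

end H503R3.CC
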