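import Mathlib

/-! Infinite projective dimension of the ideal `(x, w)` when `w ^ 2 = x * y`. -/

universe u

open CategoryTheory IsLocalRing

namespace H503R3.CC

variable {R : Type u} [CommRing R]

/-- A free ideal in a domain is principal. -/
theorem isPrincipal_of_free [IsDomain R] (I : Ideal R) [Module.Free R I] [Module.Finite R I] :
    ∃ g : R, I = Ideal.span {g} := by
  classical
  let b := Module.Free.chooseBasis R I
  have hsub : Subsingleton (Module.Free.ChooseBasisIndex R I) := by
    constructor
    intro i j
    by_contra hij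
    have hli := b.linearIndependent
    have h2 : LinearIndependent R ![b i, b j] := by
      have := hli.comp ![i, j] (by
        intro a c hac
        fin_cases a <;> fin_cases c <;> simp_all [eq_comm])
      convert this using 1
      ext k
      fin_cases k <;> simp
    rw [LinearIndependent.pair_iff] at h2
    have := h2 (b j : R) (-(b i : R)) (by
      apply Subtype.ext
      simp
      ring)
    have hb : b j = 0 := Subtype.ext this.1
    exact b.ne_zero j hb
  rcases isEmpty_or_nonempty (Module.Free.ChooseBasisIndex R I) with he | ⟨⟨i⟩⟩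
  · refine ⟨0, ?_⟩
    have : Subsingleton I := b.repr.toEquiv.subsingleton
    have h0 : I = ⊥ := by
      rw [Submodule.eq_bot_iff]
      intro x hx
      exact congrArg Subtype.val (Subsingleton.elim (⟨x, hx⟩ : I) 0)
    simp [h0]
  · refine ⟨(b i : R), ?_⟩
    apply le_antisymm
    · intro x hx
      have := b.sum_repr ⟨x, hx⟩
      rw [Finset.sum_eq_single i (fun j _ hj => (hj (Subsingleton.elim j i)).elim)
        (fun h => (h (Finset.mem_univ _)).elim)] at this
      rw [Ideal.mem_span_singleton]
      refine ⟨b.repr ⟨x, hx⟩ i, ?_⟩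
      have h3 := congrArg Subtype.val this
      simp only [SetLike.val_smul, smul_eq_mul] at h3
      exact h3.symm.trans (mul_comm _ _)
    · rw [Ideal.span_singleton_le_iff_mem]
      exact (b i).2

/-- The situation: `w ^ 2 = x y`, the ideal `(x, w)` is prime and `y` is a nonunit outside it. -/
structure Pinch (x y w : R) : Prop where
  sq : w ^ 2 = x * y
  prime : (Ideal.span {x, w}).IsPrime
  notMem : y ∉ Ideal.span {x, w}
  ne_zero : x ≠ 0

theorem Pinch.not_principal [IsDomain R] [IsLocalRing R] {x y w : R} (h : Pinch x y w)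
    (hy : y ∈ maximalIdeal R) (g : R) : Ideal.span {x, w} ≠ Ideal.span {g} := by
  intro hg
  have hx : x ∈ Ideal.span {x, w} := Ideal.subset_span (by simp)
  have hw : w ∈ Ideal.span {x, w} := Ideal.subset_span (by simp)
  have hgm : g ∈ Ideal.span {x, w} := by rw [hg]; exact Ideal.mem_span_singleton_self g
  obtain ⟨u, hu⟩ := Ideal.mem_span_singleton.mp (hg ▸ hx)
  obtain ⟨v, hv⟩ := Ideal.mem_span_singleton.mp (hg ▸ hw)
  obtain ⟨a, b, hab⟩ := Ideal.mem_span_pair.mp hgm
  have hg0 : g ≠ 0 := by
    rintro rfl
    exact h.ne_zero (by simpa using hu)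
  have h1 : a * u + b * v = 1 := by
    apply mul_left_cancel₀ hg0
    calc g * (a * u + b * v) = a * (g * u) + b * (g * v) := by ring
      _ = a * x + b * w := by rw [← hu, ← hv]
      _ = g * 1 := by rw [hab, mul_one]
  have hunit : IsUnit u ∨ IsUnit v := by
    by_contra hcon
    push Not at hcon
    have hu' : u ∈ maximalIdeal R := (mem_maximalIdeal u).mpr hcon.1
    have hv' : v ∈ maximalIdeal R := (mem_maximalIdeal v).mpr hcon.2
    have : (1 : R) ∈ maximalIdeal R := by
      rw [← h1]
      exact Ideal.add_mem _ (Ideal.mul_mem_left _ _ hu') (Ideal.mul_mem_left _ _ hv')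
    exact (Ideal.ne_top_iff_one _).mp (maximalIdeal.isMaximal R).ne_top this
  rcases hunit with hU | hV
  · -- `(x, w) = (x)`
    obtain ⟨u', hu'⟩ := hU.exists_right_inv
    have hwx : w = x * (u' * v) := by
      rw [hv, hu]
      calc g * v = g * (u * u') * v := by rw [hu', mul_one]
        _ = g * u * (u' * v) := by ring
    have h2 : y = x * (u' * v) ^ 2 := by
      apply mul_left_cancel₀ h.ne_zero
      have := h.sq
      rw [hwx] at this
      rw [← this]
      ring
    exact h.notMem (h2 ▸ Ideal.mul_mem_right _ _ hx)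
  · obtain ⟨v', hv'⟩ := hV.exists_right_inv
    have hxw : x = w * (v' * u) := by
      rw [hu, hv]
      calc g * u = g * (v * v') * u := by rw [hv', mul_one]
        _ = g * v * (v' * u) := by ring
    set r := v' * u with hr
    have hw0 : w ≠ 0 := by
      rintro rfl
      exact h.ne_zero (by simpa using hxw)
    have h2 : w = r * y := by
      apply mul_left_cancel₀ hw0
      have := h.sq
      rw [hxw] at this
      linear_combination this
    have h3 : r ∈ Ideal.span {x, w} := (h.prime.mem_or_mem (h2 ▸ hw)).resolve_right h.notMem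
    rw [hg, Ideal.mem_span_singleton] at h3
    obtain ⟨s, hs⟩ := h3
    have h4 : v * (s * y * v') = v' * v * (s * y) := by ring
    have h5 : w * 1 = w * (v' * (s * y)) := by
      have : w = g * s * y := by rw [← hs]; exact h2
      calc w * 1 = g * (v * v') * (s * y) := by rw [hv', mul_one, mul_one, ← mul_assoc]; exact this
        _ = (g * v) * (v' * (s * y)) := by ring
        _ = w * (v' * (s * y)) := by rw [← hv]
    have h6 := mul_left_cancel₀ hw0 h5
    have : (1 : R) ∈ maximalIdeal R := by
      rw [h6]
      exact Ideal.mul_mem_left _ _ (Ideal.mul_mem_left _ _ hy)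
    exact (Ideal.ne_top_iff_one _).mp (maximalIdeal.isMaximal R).ne_top this

/-- The surjection `R × R → (x, w)`. -/
def pinchMap (x w : R) : R × R →ₗ[R] (Ideal.span {x, w} : Ideal R) where
  toFun p := ⟨p.1 * x + p.2 * w, Ideal.mem_span_pair.mpr ⟨p.1, p.2, rfl⟩⟩
  map_add' p q := by
    apply Subtype.ext
    simp only [Prod.fst_add, Prod.snd_add, Submodule.coe_add]
    ring
  map_smul' r p := by
    apply Subtype.ext
    simp only [Prod.smul_fst, Prod.smul_snd, smul_eq_mul, SetLike.val_smul, RingHom.id_apply]
    ring

theorem pinchMap_surjective (x w : R) : Function.Surjective (pinchMap x w) := by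
  rintro ⟨r, hr⟩
  obtain ⟨a, b, hab⟩ := Ideal.mem_span_pair.mp hr
  exact ⟨(a, b), Subtype.ext hab⟩

theorem Pinch.mem_of_mul [IsDomain R] {x y w b c : R} (h : Pinch x y w) (hb : b * w = c * x) :
    b ∈ Ideal.span {x, w} := by
  have h1 : b * y = c * w := by
    apply mul_left_cancel₀ h.ne_zero
    calc x * (b * y) = b * (x * y) := by ring
      _ = b * w ^ 2 := by rw [h.sq]
      _ = (b * w) * w := by ring
      _ = (c * x) * w := by rw [hb]
      _ = x * (c * w) := by ring
  have h2 : b * y ∈ Ideal.span {x, w} := by
    rw [h1]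
    exact Ideal.mul_mem_left _ _ (Ideal.subset_span (by simp))
  exact (h.prime.mem_or_mem h2).resolve_right h.notMem

/-- The kernel of `R × R → (x, w)` is again `(x, w)`. -/
noncomputable def Pinch.kerEquiv [IsDomain R] {x y w : R} (h : Pinch x y w) :
    LinearMap.ker (pinchMap x w) ≃ₗ[R] (Ideal.span {x, w} : Ideal R) := by
  refine LinearEquiv.ofBijective
    (LinearMap.codRestrict (Ideal.span {x, w})
      ((LinearMap.snd R R R).comp (LinearMap.ker (pinchMap x w)).subtype) ?_) ⟨?_, ?_⟩
  · rintro ⟨⟨a, b⟩, hab⟩
    have h1 : a * x + b * w = 0 := congrArg Subtype.val (LinearMap.mem_ker.mp hab)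
    change b ∈ Ideal.span {x, w}
    exact h.mem_of_mul (c := -a) (by linear_combination h1)
  · rw [← LinearMap.ker_eq_bot, LinearMap.ker_eq_bot']
    rintro ⟨⟨a, b⟩, hab⟩ hb
    have h1 : a * x + b * w = 0 := congrArg Subtype.val (LinearMap.mem_ker.mp hab)
    have hb0 : b = 0 := congrArg Subtype.val hb
    rw [hb0, zero_mul, add_zero] at h1
    have ha0 : a = 0 := (mul_eq_zero.mp h1).resolve_right h.ne_zero
    apply Subtype.ext
    simp [ha0, hb0]
  · rintro ⟨b, hb⟩
    obtain ⟨s, t, hst⟩ := Ideal.mem_span_pair.mp hb
    refine ⟨⟨(-(s * w + t * y), b), ?_⟩, ?_⟩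
    · rw [LinearMap.mem_ker]
      apply Subtype.ext
      change -(s * w + t * y) * x + b * w = 0
      rw [← hst]
      linear_combination t * h.sq
    · rfl

theorem Pinch.not_hasProjectiveDimensionLT [IsDomain R] [IsLocalRing R] [IsNoetherianRing R]
    {x y w : R} (h : Pinch x y w) (hy : y ∈ maximalIdeal R) (n : ℕ) :
    ¬ HasProjectiveDimensionLT (ModuleCat.of R (Ideal.span {x, w} : Ideal R)) (n + 1) := by
  induction n with
  | zero =>
    intro hp
    rw [zero_add, ← projective_iff_hasProjectiveDimensionLT_one,
      ← IsProjective.iff_projective] at hp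
    have : Module.Free R (Ideal.span {x, w} : Ideal R) := Module.free_of_flat_of_isLocalRing
    obtain ⟨g, hg⟩ := isPrincipal_of_free (Ideal.span {x, w} : Ideal R)
    exact h.not_principal hy g hg
  | succ n ih =>
    intro hp
    apply ih
    have hS := LinearMap.shortExact_shortComplexKer (pinchMap_surjective x w)
    have h1 := (hS.hasProjectiveDimensionLT_X₃_iff n
      (by
        change Projective (ModuleCat.of R (R × R))
        rw [← IsProjective.iff_projective]
        infer_instance)).mp hp
    have h2 : HasProjectiveDimensionLT (ModuleCat.of R (LinearMap.ker (pinchMap x w))) (n + 1) := h1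
    exact (hasProjectiveDimensionLT_of_iso h.kerEquiv.toModuleIso (n + 1))

theorem Pinch.projectiveDimension_ideal [IsDomain R] [IsLocalRing R] [IsNoetherianRing R]
    {x y w : R} (h : Pinch x y w) (hy : y ∈ maximalIdeal R) :
    projectiveDimension (ModuleCat.of R (Ideal.span {x, w} : Ideal R)) = ⊤ := by
  by_contra hne
  obtain ⟨n, hn⟩ := (projectiveDimension_ne_top_iff _).mp hne
  exact h.not_hasProjectiveDimensionLT hy n hn

theorem Pinch.projectiveDimension_quotient [IsDomain R] [IsLocalRing R] [IsNoetherianRing R]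
    {x y w : R} (h : Pinch x y w) (hy : y ∈ maximalIdeal R) :
    projectiveDimension (ModuleCat.of R (R ⧸ (Ideal.span {x, w} : Ideal R))) = ⊤ := by
  by_contra hne
  obtain ⟨n, hn⟩ := (projectiveDimension_ne_top_iff _).mp hne
  have hS := LinearMap.shortExact_shortComplexKer
    (Submodule.mkQ_surjective (Ideal.span {x, w} : Ideal R))
  have hn2 : HasProjectiveDimensionLT
      (ModuleCat.of R (R ⧸ (Ideal.span {x, w} : Ideal R))) (n + 2) :=
    hasProjectiveDimensionLT_of_ge _ (n + 1) (n + 2) (Nat.le_succ _)
  have h1 := (hS.hasProjectiveDimensionLT_X₃_iff n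
      (by
        change Projective (ModuleCat.of R R)
        rw [← IsProjective.iff_projective]
        infer_instance)).mp hn2
  have h2 : HasProjectiveDimensionLT (ModuleCat.of R
    (LinearMap.ker (Submodule.mkQ (Ideal.span {x, w} : Ideal R)))) (n + 1) := h1
  have e : LinearMap.ker (Submodule.mkQ (Ideal.span {x, w} : Ideal R)) ≃ₗ[R]
      (Ideal.span {x, w} : Ideal R) := LinearEquiv.ofEq _ _ (Submodule.ker_mkQ _)
  exact h.not_hasProjectiveDimensionLT hy n (hasProjectiveDimensionLT_of_iso e.toModuleIso (n + 1))

end H503R3.CC
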