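import Pool.Agent.H503R3.CC.ExtPart

universe u v

open CategoryTheory IsLocalRing TensorProduct Pointwise

namespace H503R3.CC

/-- `(R / I) / r (R / I) ≅ R / (I + (r))`. -/
noncomputable def quotEquiv {R : Type u} [CommRing R] (I : Ideal R) (r : R) :
    QuotSMulTop r (R ⧸ I) ≃ₗ[R] R ⧸ (I ⊔ Ideal.span {r}) :=
  (Submodule.quotEquivOfEq _ _ (by
    change r • (⊤ : Submodule R (R ⧸ I)) =
      Submodule.map (Submodule.mkQ I) (I ⊔ Ideal.span {r} : Ideal R)
    rw [Submodule.map_sup]
    have h1 : Submodule.map (Submodule.mkQ I) I = ⊥ := by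
      rw [← LinearMap.le_ker_iff_map, Submodule.ker_mkQ]
    rw [h1, bot_sup_eq, Ideal.span, Submodule.map_span, Set.image_singleton]
    apply le_antisymm
    · intro e he
      rw [Submodule.mem_smul_pointwise_iff_exists] at he
      obtain ⟨b, -, rfl⟩ := he
      obtain ⟨b, rfl⟩ := Submodule.mkQ_surjective I b
      rw [Submodule.mem_span_singleton]
      refine ⟨b, ?_⟩
      rw [← map_smul, ← map_smul, smul_eq_mul, smul_eq_mul, mul_comm]
    · rw [Submodule.span_singleton_le_iff_mem, Submodule.mem_smul_pointwise_iff_exists]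
      refine ⟨Submodule.mkQ I 1, trivial, ?_⟩
      rw [← map_smul, smul_eq_mul, mul_one])).trans
  (Submodule.quotientQuotientEquivQuotient I (I ⊔ Ideal.span {r}) le_sup_left)

namespace Data

variable {R : Type u} [CommRing R] [IsLocalRing R] {n : ℕ} {x : ℕ → R} {w : R}

omit [IsLocalRing R] in
theorem P_mono {i j : ℕ} (hij : i ≤ j) : P x w i ≤ P x w j := by
  apply Ideal.span_mono
  apply Set.insert_subset_insert
  apply Set.image_mono
  intro k hk
  exact le_trans hk hij

theorem pinch (h : Data R n x w) : Pinch (x 0) (x n) w := by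
  refine ⟨h.sq, ?_, ?_, h.ne_zero⟩
  · rw [← P_zero]
    exact h.prime 0 (Nat.zero_le _)
  · rw [← P_zero]
    intro hc
    exact h.y_notMem (P_mono (Nat.zero_le _) hc)

theorem pd_quot [IsNoetherianRing R] [IsDomain R] (h : Data R n x w) (i : ℕ) (hi : i < n) :
    projectiveDimension (ModuleCat.of R (R ⧸ P x w i)) = ⊤ := by
  induction i with
  | zero =>
    rw [P_zero]
    exact h.pinch.projectiveDimension_quotient (h.mem_max le_rfl)
  | succ i ih =>
    have hprime := h.prime i (by omega)
    have hreg : IsSMulRegular (ModuleCat.of R (R ⧸ P x w i)) (x (i + 1)) := by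
      change IsSMulRegular (R ⧸ P x w i) (x (i + 1))
      rw [isSMulRegular_iff_right_eq_zero_of_smul]
      intro r hr
      obtain ⟨r, rfl⟩ := Ideal.Quotient.mk_surjective r
      change Ideal.Quotient.mk _ (x (i + 1) * r) = 0 at hr
      rw [Ideal.Quotient.eq_zero_iff_mem] at hr ⊢
      exact (hprime.mem_or_mem hr).resolve_left (h.notMem i (by omega))
    have h1 := ModuleCat.projectiveDimension_quotSMulTop_eq_succ_of_isSMulRegular
      (ModuleCat.of R (R ⧸ P x w i)) (x (i + 1)) hreg (h.mem_max (by omega))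
    rw [ih (by omega)] at h1
    have e : QuotSMulTop (x (i + 1)) (R ⧸ P x w i) ≃ₗ[R] R ⧸ P x w (i + 1) :=
      (quotEquiv (P x w i) (x (i + 1))).trans
        (Submodule.quotEquivOfEq _ _ (P_succ x w i).symm)
    have h2 := projectiveDimension_eq_of_iso e.toModuleIso
    rw [← h2]
    exact h1.trans rfl

/-- The condition `(C_(n+1))` fails for `R`. -/
theorem not_conditionC [IsNoetherianRing R] [IsDomain R] (h : Data R n x w) :
    ¬ ConditionC (n + 1) R := by
  intro hC
  have h1 := hC (R ⧸ P x w (n - 1)) h.quot_isCM h.tensor_isCM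
  rw [h.pd_quot (n - 1) (by have := h.pos; omega)] at h1
  exact lt_irrefl _ h1

end Data

end H503R3.CC
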